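import Mathlib

/-!
Project MM (helper80): the counting lemma used in STEP and FIRST.
-/

set_option autoImplicit false

namespace Pool.Agent.Helper68.MM

/-- There are at most `(2 H + 1) ^ ((D + 1) ^ N)` integral polynomials in `N` variables of degree at most
`D` with coefficients of absolute value at most `H`. -/
theorem cnt (N D H : ℕ) :
    {P : MvPolynomial (Fin N) ℤ | P.totalDegree ≤ D ∧ ∀ m, |P.coeff m| ≤ (H : ℤ)}.Finite ∧
    {P : MvPolynomial (Fin N) ℤ | P.totalDegree ≤ D ∧ ∀ m, |P.coeff m| ≤ (H : ℤ)}.ncard ≤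
      (2 * H + 1) ^ ((D + 1) ^ N) := by
  classical
  set S : Set (MvPolynomial (Fin N) ℤ) := {P | P.totalDegree ≤ D ∧ ∀ m, |P.coeff m| ≤ (H : ℤ)} with hS
  let φ : MvPolynomial (Fin N) ℤ → ((Fin N → Fin (D + 1)) → ℤ) := fun P v =>
    P.coeff (Finsupp.equivFunOnFinite.symm fun i => (v i : ℕ))
  let T : Finset ((Fin N → Fin (D + 1)) → ℤ) := Fintype.piFinset fun _ => Finset.Icc (-(H : ℤ)) H
  have hT : ∀ P ∈ S, φ P ∈ (T : Set ((Fin N → Fin (D + 1)) → ℤ)) := by
    intro P hP
    simp only [T, Finset.mem_coe, Fintype.mem_piFinset, Finset.mem_Icc]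
    intro v
    exact abs_le.1 (hP.2 _)
  have hinj : Set.InjOn φ S := by
    intro P hP Q hQ h
    have key : ∀ R ∈ S, ∀ m : Fin N →₀ ℕ, (¬ ∀ i, m i ≤ D) → R.coeff m = 0 := by
      intro R hR m hm
      push Not at hm
      obtain ⟨i, hi⟩ := hm
      by_contra h0
      have h1 : (m.sum fun _ e => e) ≤ R.totalDegree :=
        MvPolynomial.le_totalDegree (MvPolynomial.mem_support_iff.2 h0)
      have h2 : m i ≤ m.sum fun _ e => e := by
        rw [Finsupp.sum]
        refine Finset.single_le_sum (f := fun j => m j) (fun j _ => Nat.zero_le _) ?_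
        rw [Finsupp.mem_support_iff]
        omega
      have h3 : R.totalDegree ≤ D := hR.1
      omega
    refine MvPolynomial.ext _ _ fun m => ?_
    by_cases hm : ∀ i, m i ≤ D
    · have := congrFun h fun i => ⟨m i, Nat.lt_succ_of_le (hm i)⟩
      have e : (Finsupp.equivFunOnFinite.symm fun i => ((⟨m i, Nat.lt_succ_of_le (hm i)⟩ : Fin (D + 1)) : ℕ)) = m := by
        ext i
        rfl
      simp only [φ] at this
      rw [e] at this
      exact this
    · rw [key P hP m hm, key Q hQ m hm]
  refine ⟨Set.Finite.of_finite_image (T.finite_toSet.subset ?_) hinj, ?_⟩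
  · rintro _ ⟨P, hP, rfl⟩
    exact hT P hP
  · refine (Set.ncard_le_ncard_of_injOn φ hT hinj T.finite_toSet).trans ?_
    rw [Set.ncard_coe_finset]
    refine le_of_eq ?_
    show (Fintype.piFinset fun _ : Fin N → Fin (D + 1) => Finset.Icc (-(H : ℤ)) H).card = _
    have h1 : Fintype.card (Fin N → Fin (D + 1)) = (D + 1) ^ N := by simp
    rw [Fintype.card_piFinset, Finset.prod_const, Finset.card_univ, Int.card_Icc, h1]
    congr 1
    omega

end Pool.Agent.Helper68.MM
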